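import Mathlib

open Finset

namespace Pool.Agent.Results.MP_269329_co.WalkSums

/-- A walk with steps in `{2, 4, …, 2m}` is a list over `Fin m`; the letter `k` (numbered from `0`)
is the step `2(k+1)`. `vertex n x t = -n + ∑_{i ≤ t} x(i)` is the vertex `j(t)` of the walk `x` that
starts at `-n`. -/
def vertex {m : ℕ} (n : ℕ) (x : List (Fin m)) (t : ℕ) : ℤ :=
  -(n : ℤ) + (List.map (fun k : Fin m => (2 * (((k : ℕ) : ℤ) + 1))) (x.take t)).sum

/-- `X_n^+`: the admissible positive walks from `-n` to `n` with steps in `{2, …, 2m}`. -/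
def X (m n : ℕ) : Set (List (Fin m)) :=
  {x | x ≠ [] ∧ vertex n x x.length = n ∧
    ∀ t, 1 ≤ t → t < x.length → vertex n x t ≠ n ∧ vertex n x t ≠ -n}

/-- `h(x) = ∏_{t=1}^{ν} [n² - j(t)²]⁻¹ ∏_{t=1}^{ν+1} V(x(t))`, where `V(2(k+1)) = z k`. -/
noncomputable def h {m : ℕ} (z : Fin m → ℂ) (n : ℕ) (x : List (Fin m)) : ℂ :=
  (∏ t ∈ Finset.Ico 1 x.length, ((n : ℂ) ^ 2 - (vertex n x t : ℂ) ^ 2)⁻¹) * (x.map z).prod

/-- `A_n(z)`, the sum of the `|h(x)|` over the finite set `X_n^+`. -/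
noncomputable def A {m : ℕ} (z : Fin m → ℂ) (n : ℕ) : ℝ := ∑ᶠ x ∈ X m n, ‖h z n x‖

/-- `S_n(z)`, the sum of the `h(x)` over the finite set `X_n^+`. -/
noncomputable def S {m : ℕ} (z : Fin m → ℂ) (n : ℕ) : ℂ := ∑ᶠ x ∈ X m n, h z n x

/-- `W`: the set of `z` for which no constant `C` satisfies `A_n(z) ≤ C |S_n(z)|` for all `n`. -/
def W (m : ℕ) : Set (Fin m → ℂ) := {z | ¬ ∃ C : ℝ, ∀ n : ℕ, A z n ≤ C * ‖S z n‖}

/-! ### Lists, weights and the recursion -/

/-- half the displacement of a walk -/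
def lsum {m : ℕ} (l : List (Fin m)) : ℕ := (List.map (fun k : Fin m => (k : ℕ) + 1) l).sum

@[simp] theorem lsum_nil {m : ℕ} : lsum ([] : List (Fin m)) = 0 := rfl
@[simp] theorem lsum_cons {m : ℕ} (a : Fin m) (l : List (Fin m)) :
    lsum (a :: l) = (a : ℕ) + 1 + lsum l := by simp [lsum]

theorem length_le_lsum {m : ℕ} (l : List (Fin m)) : l.length ≤ lsum l := by
  induction l with
  | nil => simp
  | cons a l ih => simp only [List.length_cons, lsum_cons]; omega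

def Ls (m n s : ℕ) : Set (List (Fin m)) := {l | s + lsum l = n}

theorem Ls_finite (m n s : ℕ) : (Ls m n s).Finite := by
  refine (List.finite_length_le (Fin m) n).subset fun l hl => ?_
  have h1 : s + lsum l = n := hl
  have h2 := length_le_lsum l
  show l.length ≤ n
  omega

theorem Ls_self (m n : ℕ) : Ls m n n = {[]} := by
  ext l
  simp only [Ls, Set.mem_ofPred_eq, Set.mem_singleton_iff]
  constructor
  · intro h
    have := length_le_lsum l
    exact List.length_eq_zero_iff.1 (by omega)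
  · rintro rfl
    simp

theorem Ls_empty {m n s : ℕ} (h : n < s) : Ls m n s = ∅ := by
  ext l
  simp only [Ls, Set.mem_ofPred_eq, Set.mem_empty_iff_false, iff_false]
  omega

theorem Ls_rec {m n s : ℕ} (h : s ≠ n) :
    Ls m n s = ⋃ a : Fin m, (fun l => a :: l) '' Ls m n (s + (a : ℕ) + 1) := by
  ext l
  simp only [Set.mem_iUnion, Set.mem_image, Ls, Set.mem_ofPred_eq]
  constructor
  · intro hl
    cases l with
    | nil => simp at hl; exact absurd hl h
    | cons a l =>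
      rw [lsum_cons] at hl
      exact ⟨a, l, by omega, rfl⟩
  · rintro ⟨a, l', hl, rfl⟩
    rw [lsum_cons]
    omega

theorem sum_rec {m n s : ℕ} (h : s ≠ n) {E : Type*} [AddCommMonoid E] (f : List (Fin m) → E) :
    ∑ᶠ l ∈ Ls m n s, f l = ∑ a : Fin m, ∑ᶠ l ∈ Ls m n (s + (a : ℕ) + 1), f (a :: l) := by
  rw [Ls_rec h, finsum_mem_iUnion, finsum_eq_sum_of_fintype]
  · refine Finset.sum_congr rfl fun a _ => ?_
    rw [finsum_mem_image]
    intro l _ l' _ hl
    simpa using hl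
  · intro a b hab
    rw [Function.onFun, Set.disjoint_left]
    rintro _ ⟨l, _, rfl⟩ ⟨l', _, hl'⟩
    simp only [List.cons.injEq] at hl'
    exact hab hl'.1.symm
  · intro a
    exact (Ls_finite _ _ _).image _

/-- `1/(4t(n-t))`, with value `1` at the last vertex -/
noncomputable def gg (n t : ℕ) : ℝ := if t < n then (4 * t * (n - t) : ℝ)⁻¹ else 1

theorem gg_nonneg (n t : ℕ) : 0 ≤ gg n t := by
  unfold gg
  split_ifs with h
  · have : (t : ℝ) < n := by exact_mod_cast h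
    have : (0 : ℝ) ≤ n - t := by linarith
    positivity
  · exact zero_le_one

noncomputable def Wt {m : ℕ} (z : Fin m → ℂ) (n : ℕ) : ℕ → List (Fin m) → ℂ
  | _, [] => 1
  | s, a :: l => z a * gg n (s + (a : ℕ) + 1) * Wt z n (s + (a : ℕ) + 1) l

noncomputable def SS {m : ℕ} (z : Fin m → ℂ) (n s : ℕ) : ℂ := ∑ᶠ l ∈ Ls m n s, Wt z n s l
noncomputable def AA {m : ℕ} (z : Fin m → ℂ) (n s : ℕ) : ℝ := ∑ᶠ l ∈ Ls m n s, ‖Wt z n s l‖

theorem SS_rec {m : ℕ} (z : Fin m → ℂ) {n s : ℕ} (h : s ≠ n) :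
    SS z n s = ∑ a : Fin m, z a * gg n (s + (a : ℕ) + 1) * SS z n (s + (a : ℕ) + 1) := by
  rw [SS, sum_rec h]
  refine Finset.sum_congr rfl fun a _ => ?_
  rw [SS, mul_finsum_mem' _ _ (Ls_finite _ _ _)]
  rfl

theorem AA_rec {m : ℕ} (z : Fin m → ℂ) {n s : ℕ} (h : s ≠ n) :
    AA z n s = ∑ a : Fin m, ‖z a‖ * gg n (s + (a : ℕ) + 1) * AA z n (s + (a : ℕ) + 1) := by
  rw [AA, sum_rec h]
  refine Finset.sum_congr rfl fun a _ => ?_
  rw [AA, mul_finsum_mem' _ _ (Ls_finite _ _ _)]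
  refine finsum_mem_congr rfl fun l _ => ?_
  rw [Wt, norm_mul, norm_mul, Complex.norm_real, Real.norm_of_nonneg (gg_nonneg _ _)]

theorem SS_self {m : ℕ} (z : Fin m → ℂ) (n : ℕ) : SS z n n = 1 := by
  rw [SS, Ls_self, finsum_mem_singleton, Wt]

theorem AA_self {m : ℕ} (z : Fin m → ℂ) (n : ℕ) : AA z n n = 1 := by
  rw [AA, Ls_self, finsum_mem_singleton, Wt, norm_one]

theorem AA_nonneg {m : ℕ} (z : Fin m → ℂ) (n s : ℕ) : 0 ≤ AA z n s := by
  rw [AA, finsum_mem_eq_finite_toFinset_sum _ (Ls_finite _ _ _)]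
  exact Finset.sum_nonneg fun _ _ => norm_nonneg _

theorem SS_le {m : ℕ} (z : Fin m → ℂ) (n s : ℕ) : ‖SS z n s‖ ≤ AA z n s := by
  rw [SS, AA, finsum_mem_eq_finite_toFinset_sum _ (Ls_finite _ _ _),
    finsum_mem_eq_finite_toFinset_sum _ (Ls_finite _ _ _)]
  exact norm_sum_le _ _

/-! ### The link with the original sums -/

theorem vertex_eq {m : ℕ} (n : ℕ) (x : List (Fin m)) (t : ℕ) :
    vertex n x t = -(n : ℤ) + 2 * (lsum (x.take t) : ℤ) := by
  unfold vertex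
  congr 1
  induction x.take t with
  | nil => simp
  | cons a l ih =>
    rw [List.map_cons, List.sum_cons, ih, lsum_cons]
    push_cast
    ring

theorem X_eq {m n : ℕ} (hn : 1 ≤ n) : X m n = Ls m n 0 := by
  ext x
  simp only [X, Ls, Set.mem_ofPred_eq, vertex_eq, List.take_length]
  constructor
  · rintro ⟨_, h2, _⟩
    omega
  · intro h
    refine ⟨?_, by omega, ?_⟩
    · rintro rfl
      simp at h
      omega
    · intro t ht1 ht2
      have e : lsum (x.take t) + lsum (x.drop t) = lsum x := by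
        conv_rhs => rw [← List.take_append_drop t x]
        rw [lsum, lsum, lsum, List.map_append, List.sum_append]
      have l1 := length_le_lsum (x.take t)
      have l2 := length_le_lsum (x.drop t)
      rw [List.length_take] at l1
      rw [List.length_drop] at l2
      constructor <;> omega

theorem h_aux {m : ℕ} (z : Fin m → ℂ) (n : ℕ) (x : List (Fin m)) (s : ℕ) (hs : s + lsum x = n) :
    (∏ t ∈ Finset.Ico 1 x.length,
      ((n : ℂ) ^ 2 - ((-(n : ℤ) + 2 * (s + lsum (x.take t) : ℕ) : ℤ) : ℂ) ^ 2)⁻¹) *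
      (x.map z).prod = Wt z n s x := by
  induction x generalizing s with
  | nil => simp [Wt]
  | cons a l ih =>
    rw [lsum_cons] at hs
    have ih' := ih (s + (a : ℕ) + 1) (by omega)
    rw [Wt, ← ih']
    cases l with
    | nil =>
      simp only [lsum_nil] at hs
      have : gg n (s + (a : ℕ) + 1) = 1 := by
        unfold gg
        rw [if_neg (by omega)]
      rw [this]
      simp
    | cons b l =>
      have hlt : s + (a : ℕ) + 1 < n := by
        rw [lsum_cons] at hs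
        omega
      have e1 : (a :: b :: l).length = (b :: l).length + 1 := rfl
      have hgg : (gg n (s + (a : ℕ) + 1) : ℂ) =
          ((n : ℂ) ^ 2 - ((-(n : ℤ) + 2 * (s + (a : ℕ) + 1 : ℕ) : ℤ) : ℂ) ^ 2)⁻¹ := by
        unfold gg
        rw [if_pos hlt]
        push_cast
        congr 1
        ring
      rw [e1, Finset.prod_eq_prod_Ico_succ_bot (by simp), ← Finset.prod_Ico_add', hgg]
      have e2 : ∀ t, s + lsum ((a :: b :: l).take (t + 1)) =
          (s + (a : ℕ) + 1) + lsum ((b :: l).take t) := by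
        intro t
        rw [List.take_succ_cons, lsum_cons]
        ring
      simp only [e2]
      rw [List.take_zero, lsum_nil, List.map_cons, List.prod_cons]
      ring

theorem h_eq {m : ℕ} (z : Fin m → ℂ) (n : ℕ) (x : List (Fin m)) (hx : x ∈ Ls m n 0) :
    h z n x = Wt z n 0 x := by
  rw [← h_aux z n x 0 hx, h]
  simp only [vertex_eq, zero_add]

theorem S_eq {m : ℕ} (z : Fin m → ℂ) {n : ℕ} (hn : 1 ≤ n) : S z n = SS z n 0 := by
  rw [S, SS, X_eq hn]
  exact finsum_mem_congr rfl fun x hx => h_eq z n x hx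

theorem A_eq {m : ℕ} (z : Fin m → ℂ) {n : ℕ} (hn : 1 ≤ n) : A z n = AA z n 0 := by
  rw [A, AA, X_eq hn]
  exact finsum_mem_congr rfl fun x hx => by rw [h_eq z n x hx]

/-! ### A Harnack inequality -/

theorem harnack {m : ℕ} (hm : 2 ≤ m) {K ε : ℝ} (hK : 0 ≤ K) (hε : 0 < ε) {T : ℕ}
    (hT : 1 ≤ T * ε) (hT2 : T * ε ≤ 2) (hε1 : ε ≤ 1)
    {B : ℕ → ℝ} (hB : ∀ t, 0 ≤ B t) {s : ℕ}
    (hup : ∀ t, s ≤ t → t ≤ s + 2 * m + m * m * (T + 1) →
      ∀ M, (∀ i, 1 ≤ i → i ≤ m → B (t + i) ≤ M) → B t ≤ (1 + K * ε) * M)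
    (hlow : ∀ t, s ≤ t → t ≤ s + 2 * m + m * m * (T + 1) →
      B (t + m) + ε * B (t + m - 1) ≤ B t) :
    Real.exp (-(K * (3 * m + 3 * m * m))) * B s ≤ B (s + (2 * m - 2)) := by
  set s1 := s + 2 * m + m * m * (T + 1) with hs1
  obtain ⟨i, hi, hmax⟩ := Finset.exists_max_image (Finset.range m) (fun i => B (s1 + i))
    ⟨0, by simp; omega⟩
  rw [Finset.mem_range] at hi
  set M := B (s1 + i) with hM
  have hM0 : 0 ≤ M := hB _
  have hρ : 1 ≤ 1 + K * ε := by nlinarith [mul_nonneg hK hε.le]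
  -- upper bound
  have up : ∀ d t, s ≤ t → t + d + 1 = s1 + m → B t ≤ (1 + K * ε) ^ d * M := by
    intro d
    induction d using Nat.strong_induction_on with
    | _ d ih =>
      intro t hst htd
      by_cases ht : s1 ≤ t
      · have := hmax (t - s1) (by rw [Finset.mem_range]; omega)
        rw [show s1 + (t - s1) = t by omega] at this
        calc B t ≤ 1 * M := by rw [one_mul]; exact this
          _ ≤ (1 + K * ε) ^ d * M := by gcongr; exact one_le_pow₀ hρ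
      · obtain ⟨d', rfl⟩ : ∃ d', d = d' + 1 := ⟨d - 1, by omega⟩
        have := hup t hst (by omega) ((1 + K * ε) ^ d' * M) (fun j hj1 hjm => by
          have h1 := ih (d' + 1 - j) (by omega) (t + j) (by omega) (by omega)
          refine h1.trans ?_
          gcongr
          omega)
        calc B t ≤ (1 + K * ε) * ((1 + K * ε) ^ d' * M) := this
          _ = _ := by ring
  -- lower bound
  have low0 : ∀ q t, s ≤ t → t + m * q = s1 + i → M ≤ B t := by
    intro q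
    induction q with
    | zero =>
      intro t _ ht
      rw [show t = s1 + i by omega]
    | succ q ih =>
      intro t hst ht
      have e : m * (q + 1) = m * q + m := by ring
      have h1 := ih (t + m) (by omega) (by omega)
      have h2 := hlow t hst (by omega)
      have h3 := mul_nonneg hε.le (hB (t + m - 1))
      linarith
  have low : ∀ j q t, j * T ≤ q → s ≤ t → t + m * q + j * (m - 1) = s1 + i → M ≤ B t := by
    intro j
    induction j with
    | zero =>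
      intro q t _ hst ht
      exact low0 q t hst (by omega)
    | succ j ih =>
      intro q t hq hst ht
      have ej : (j + 1) * (m - 1) = j * (m - 1) + (m - 1) := by ring
      have eT : (j + 1) * T = j * T + T := by ring
      have key : ∀ k, k ≤ T → B (t + k * m) + k * (ε * M) ≤ B t := by
        intro k
        induction k with
        | zero => intro _; simp
        | succ k ihk =>
          intro hk
          have h1 := ihk (by omega)
          have e1 : m * q = m * (q - k) + k * m := by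
            obtain ⟨r, rfl⟩ : ∃ r, q = k + r := ⟨q - k, by omega⟩
            rw [Nat.add_sub_cancel_left]
            ring
          have h2 := hlow (t + k * m) (by omega) (by omega)
          have h3 := ih (q - k) (t + k * m + m - 1) (by omega) (by omega) (by omega)
          have e2 : t + (k + 1) * m = t + k * m + m := by ring
          rw [e2]
          have h4 := mul_le_mul_of_nonneg_left h3 hε.le
          push_cast
          linarith
      have h5 := key T le_rfl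
      have h6 := hB (t + T * m)
      have h7 : M ≤ T * (ε * M) := by
        calc M = 1 * M := (one_mul _).symm
          _ ≤ (T * ε) * M := by gcongr
          _ = _ := by ring
      linarith
  -- conclusion
  have hlast : M ≤ B (s + (2 * m - 2)) := by
    set t := s + (2 * m - 2) with ht
    set Δ := s1 + i - t with hΔ
    have hΔ2 : t + Δ = s1 + i := by omega
    set j := (m - Δ % m) % m with hj
    have hjm : j < m := Nat.mod_lt _ (by omega)
    have hdiv : m ∣ Δ + j := by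
      have h1 : Δ % m < m := Nat.mod_lt _ (by omega)
      have h2 := Nat.div_add_mod Δ m
      rcases Nat.eq_zero_or_pos (Δ % m) with h0 | h0
      · have : j = 0 := by rw [hj, h0, Nat.sub_zero, Nat.mod_self]
        rw [this, add_zero]
        exact Nat.dvd_of_mod_eq_zero h0
      · have : j = m - Δ % m := by rw [hj]; exact Nat.mod_eq_of_lt (by omega)
        refine ⟨Δ / m + 1, ?_⟩
        rw [this, mul_add, mul_one]
        omega
    obtain ⟨r, hr⟩ := hdiv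
    have hΔ3 : m * m * (T + 1) ≤ Δ := by omega
    have hr1 : j * (T + 1) ≤ r := by
      by_contra hcon
      push Not at hcon
      have h1 : m * r < m * (m * (T + 1)) := by
        apply Nat.mul_lt_mul_of_pos_left _ (by omega)
        calc r < j * (T + 1) := hcon
          _ ≤ m * (T + 1) := Nat.mul_le_mul_right _ hjm.le
      rw [← mul_assoc] at h1
      omega
    have e3 : j * (T + 1) = j * T + j := by ring
    refine low j (r - j) t (by omega) (by omega) ?_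
    obtain ⟨r', rfl⟩ : ∃ r', r = j + r' := ⟨r - j, by omega⟩
    rw [Nat.add_sub_cancel_left]
    obtain ⟨m', rfl⟩ : ∃ m', m = m' + 1 := ⟨m - 1, by omega⟩
    rw [Nat.add_sub_cancel]
    have e4 : (m' + 1) * (j + r') = (m' + 1) * r' + j * m' + j := by ring
    omega
  have hup2 := up (s1 + m - 1 - s) s le_rfl (by omega)
  have hd : s1 + m - 1 - s ≤ 3 * m + m * m * (T + 1) := by omega
  have hpow : (1 + K * ε) ^ (s1 + m - 1 - s) ≤ Real.exp (K * (3 * m + 3 * m * m)) := by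
    calc (1 + K * ε) ^ (s1 + m - 1 - s) ≤ (1 + K * ε) ^ (3 * m + m * m * (T + 1)) :=
          pow_le_pow_right₀ hρ hd
      _ ≤ (Real.exp (K * ε)) ^ (3 * m + m * m * (T + 1)) := by
          gcongr
          rw [add_comm]
          exact Real.add_one_le_exp _
      _ = Real.exp (((3 * m + m * m * (T + 1) : ℕ) : ℝ) * (K * ε)) := by
          rw [Real.exp_nat_mul]
      _ ≤ Real.exp (K * (3 * m + 3 * m * m)) := by
          apply Real.exp_le_exp.2
          push_cast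
          have h1 : (3 * (m : ℝ) + m * m * (T + 1)) * (K * ε) =
              K * (3 * m * ε + m * m * (T * ε) + m * m * ε) := by ring
          rw [h1]
          apply mul_le_mul_of_nonneg_left _ hK
          have hm0 : (0 : ℝ) ≤ m := Nat.cast_nonneg m
          have hmm : (0 : ℝ) ≤ m * m := mul_nonneg hm0 hm0
          nlinarith [mul_le_mul_of_nonneg_left hε1 hm0, mul_le_mul_of_nonneg_left hT2 hmm,
            mul_le_mul_of_nonneg_left hε1 hmm]
  calc Real.exp (-(K * (3 * m + 3 * m * m))) * B s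
      ≤ Real.exp (-(K * (3 * m + 3 * m * m))) * ((1 + K * ε) ^ (s1 + m - 1 - s) * M) := by
        gcongr
    _ ≤ Real.exp (-(K * (3 * m + 3 * m * m))) * (Real.exp (K * (3 * m + 3 * m * m)) * M) := by
        gcongr
    _ = M := by rw [← mul_assoc, ← Real.exp_add, neg_add_cancel, Real.exp_zero, one_mul]
    _ ≤ _ := hlast

/-! ### Local estimates -/

theorem gg_bounds {n s t L : ℕ} {δ : ℝ} (hn : 0 < n) (h1 : n ≤ 4 * s) (h2 : 4 * s ≤ 3 * n)
    (hst : s ≤ t) (htL : t ≤ s + L) (hL : 8 * L ≤ n) (hδ : 6 * (L : ℝ) ≤ δ * n)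
    (hδ2 : δ ≤ 1 / 3) :
    gg n s / (1 + δ) ≤ gg n t ∧ gg n t ≤ (1 + 3 * δ) * (gg n s / (1 + δ)) := by
  have hnR : (0 : ℝ) < n := by exact_mod_cast hn
  have h1R : (n : ℝ) ≤ 4 * s := by exact_mod_cast h1
  have h2R : 4 * (s : ℝ) ≤ 3 * n := by exact_mod_cast h2
  have hstR : (s : ℝ) ≤ t := by exact_mod_cast hst
  have htLR : (t : ℝ) ≤ s + L := by exact_mod_cast htL
  have hLR : 8 * (L : ℝ) ≤ n := by exact_mod_cast hL
  have hL0 : (0 : ℝ) ≤ L := Nat.cast_nonneg L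
  have hδ0 : 0 ≤ δ := by
    by_contra hcon
    push Not at hcon
    nlinarith
  have hsn : s < n := by omega
  have htn : t < n := by omega
  unfold gg
  rw [if_pos hsn, if_pos htn]
  set P : ℝ := 4 * s * (n - s) with hP
  set Q : ℝ := 4 * t * (n - t) with hQ
  have hPl : 3 / 4 * (n : ℝ) ^ 2 ≤ P := by nlinarith [mul_nonneg (sub_nonneg.2 h1R) (sub_nonneg.2 h2R)]
  have hP0 : 0 < P := by nlinarith [pow_pos hnR 2]
  have hdiff : Q - P = 4 * (t - s) * (n - t - s) := by rw [hP, hQ]; ring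
  have hts0 : (0 : ℝ) ≤ t - s := by linarith
  have hδP : 4 * (L : ℝ) * n ≤ δ * P := by
    have : δ * (3 / 4 * (n : ℝ) ^ 2) ≤ δ * P := mul_le_mul_of_nonneg_left hPl hδ0
    nlinarith [mul_le_mul_of_nonneg_right hδ hnR.le]
  have hb1 : Q - P ≤ δ * P := by
    rw [hdiff]
    have h3 : (n - t - s : ℝ) ≤ n := by
      have : (0 : ℝ) ≤ t := Nat.cast_nonneg t
      have : (0 : ℝ) ≤ s := Nat.cast_nonneg s
      linarith
    have h4 : 4 * (t - s : ℝ) * (n - t - s) ≤ 4 * (t - s) * n :=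
      mul_le_mul_of_nonneg_left h3 (by linarith)
    have h5 : 4 * (t - s : ℝ) * n ≤ 4 * L * n :=
      mul_le_mul_of_nonneg_right (by linarith) hnR.le
    linarith
  have hb2 : -(δ * P) ≤ Q - P := by
    rw [hdiff]
    have h3 : -(n : ℝ) ≤ (n - t - s : ℝ) := by linarith
    have h4 : 4 * (t - s : ℝ) * (-n) ≤ 4 * (t - s) * (n - t - s) :=
      mul_le_mul_of_nonneg_left h3 (by linarith)
    have h5 : 4 * (t - s : ℝ) * n ≤ 4 * L * n :=
      mul_le_mul_of_nonneg_right (by linarith) hnR.le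
    linarith
  have hQ0 : 0 < Q := by nlinarith
  have hδ1 : 0 < 1 + δ := by linarith
  constructor
  · rw [inv_eq_one_div, inv_eq_one_div, div_div, div_le_div_iff₀ (by positivity) hQ0]
    nlinarith
  · rw [inv_eq_one_div, inv_eq_one_div, div_div, mul_one_div, div_le_div_iff₀ hQ0 (by positivity)]
    have h6 : (1 - δ) * P ≤ Q := by linarith
    have h7 : (1 + 3 * δ) * ((1 - δ) * P) ≤ (1 + 3 * δ) * Q :=
      mul_le_mul_of_nonneg_left h6 (by linarith)
    nlinarith [mul_nonneg (mul_nonneg hδ0 (by linarith : (0 : ℝ) ≤ 1 - 3 * δ)) hP0.le]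

theorem gg_pos {n t : ℕ} (ht : 1 ≤ t) : 0 < gg n t := by
  unfold gg
  split_ifs with h
  · have h1 : (t : ℝ) < n := by exact_mod_cast h
    have h2 : (0 : ℝ) < n - t := by linarith
    have h3 : (0 : ℝ) < t := by exact_mod_cast ht
    positivity
  · exact zero_lt_one

/-- the letters of the steps `2m`, `2(m-1)`, `2(m-2)` -/
def i1 {m : ℕ} (hm : 5 ≤ m) : Fin m := ⟨m - 1, by omega⟩
def i2 {m : ℕ} (hm : 5 ≤ m) : Fin m := ⟨m - 2, by omega⟩
def i3 {m : ℕ} (hm : 5 ≤ m) : Fin m := ⟨m - 3, by omega⟩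

/-- the open set on which the ratio is unbounded -/
def U {m : ℕ} (hm : 5 ≤ m) : Set (Fin m → ℂ) :=
  {z | (∀ a, ‖z a‖ < 2) ∧ 1 / 2 < ‖z (i1 hm)‖ ∧ 1 / 2 < ‖z (i2 hm)‖ ∧ 1 / 2 < ‖z (i3 hm)‖ ∧
    ‖z (i2 hm) ^ 2 + z (i1 hm) * z (i3 hm)‖ < 1 / 16}

noncomputable def pm (m : ℕ) : ℝ := Real.exp (-(33 * m * (3 * m + 3 * m * m))) / (16 * m ^ 2)

theorem setup {m : ℕ} (hm : 5 ≤ m) {z : Fin m → ℂ} (hz : z ∈ U hm) {N : ℕ}
    (hN : 10000 * m ^ 3 ≤ N) {n : ℕ} (hn : n = m * N ^ m) {s : ℕ} (h1 : n ≤ 4 * s)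
    (h2 : 4 * s ≤ 3 * n) :
    ∃ g0 lam : ℝ, ∃ T : ℕ, 0 < g0 ∧ 1 ≤ lam ∧ lam ≤ 2 * (m : ℝ) * (N : ℝ) ^ 2 ∧
      ‖z (i1 hm)‖ * g0 * lam ^ m = 1 ∧ 4 * lam ≤ T ∧ (T : ℝ) ≤ 4 * lam + 1 ∧
      s + (3 * m + m * m * (T + 1)) < n ∧
      (∀ t, s ≤ t → t ≤ s + (3 * m + m * m * (T + 1)) →
        g0 ≤ gg n t ∧ gg n t ≤ (1 + 1 / (4 * lam)) * g0 ∧ gg n t ≤ (1 + 1 / 100) * g0) := by
  obtain ⟨hz0, hz1, hz2, hz3, hz4⟩ := hz
  have hmR : (5 : ℝ) ≤ m := by exact_mod_cast hm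
  have hNR : 10000 * (m : ℝ) ^ 3 ≤ N := by exact_mod_cast hN
  have hm3 : (125 : ℝ) ≤ (m : ℝ) ^ 3 := by
    calc (125 : ℝ) = 5 ^ 3 := by norm_num
      _ ≤ (m : ℝ) ^ 3 := by gcongr
  have hN1 : (1 : ℝ) ≤ N := by linarith
  have hN0 : (0 : ℝ) < N := by linarith
  have hnR : (n : ℝ) = m * (N : ℝ) ^ m := by rw [hn]; push_cast; ring
  have hNm : (N : ℝ) ^ 5 ≤ (N : ℝ) ^ m := pow_le_pow_right₀ hN1 hm
  have hnlow : (m : ℝ) * N ^ 5 ≤ n := by
    rw [hnR]
    gcongr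
  have hn0R : (0 : ℝ) < n := lt_of_lt_of_le (by positivity) hnlow
  have hn0 : 0 < n := by exact_mod_cast hn0R
  set δ : ℝ := 108 * m ^ 3 * N ^ 2 / n with hδ
  have hδ0 : 0 ≤ δ := by positivity
  have hδn : δ * n = 108 * m ^ 3 * N ^ 2 := by rw [hδ]; field_simp
  -- `24 m N² δ ≤ 1`
  have hδ1 : δ * (24 * m * N ^ 2) ≤ 1 := by
    have h3 : 108 * (m : ℝ) ^ 3 * (N : ℝ) ^ 2 * (24 * (m : ℝ) * (N : ℝ) ^ 2) ≤ (n : ℝ) := by
      calc 108 * (m : ℝ) ^ 3 * (N : ℝ) ^ 2 * (24 * (m : ℝ) * (N : ℝ) ^ 2)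
          = (m : ℝ) * (N : ℝ) ^ 4 * (2592 * (m : ℝ) ^ 3) := by ring
        _ ≤ (m : ℝ) * (N : ℝ) ^ 4 * (N : ℝ) := by
            gcongr
            linarith
        _ = (m : ℝ) * (N : ℝ) ^ 5 := by ring
        _ ≤ (n : ℝ) := hnlow
    rw [hδ, div_mul_eq_mul_div, div_le_one hn0R]
    exact h3
  have hδ2 : δ ≤ 1 / 300 := by
    have h3 : (300 : ℝ) ≤ 24 * m * N ^ 2 := by nlinarith
    nlinarith
  set g0 : ℝ := gg n s / (1 + δ) with hg0
  have hs1 : 1 ≤ s := by omega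
  have hsn : s < n := by omega
  have hggs : 0 < gg n s := gg_pos hs1
  have hg00 : 0 < g0 := by positivity
  have hz1' : 0 < ‖z (i1 hm)‖ := by linarith
  set x : ℝ := (‖z (i1 hm)‖ * g0)⁻¹ with hx
  have hx0 : 0 < x := by positivity
  set lam : ℝ := x ^ ((m : ℝ)⁻¹) with hlam
  have hlam0 : 0 < lam := Real.rpow_pos_of_pos hx0 _
  have hlamm : lam ^ m = x := Real.rpow_inv_natCast_pow hx0.le (by omega)
  have hlamg : ‖z (i1 hm)‖ * g0 * lam ^ m = 1 := by
    rw [hlamm, hx, mul_inv_cancel₀ (by positivity)]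
  -- two-sided bounds for `gg n s`
  have h1R : (n : ℝ) ≤ 4 * s := by exact_mod_cast h1
  have h2R : 4 * (s : ℝ) ≤ 3 * n := by exact_mod_cast h2
  set P : ℝ := 4 * s * (n - s) with hP
  have hPl : 3 / 4 * (n : ℝ) ^ 2 ≤ P := by
    have h3 := mul_nonneg (sub_nonneg.2 h1R) (sub_nonneg.2 h2R)
    have h4 : P - 3 / 4 * (n : ℝ) ^ 2 = 1 / 4 * ((4 * s - n) * (3 * n - 4 * s)) := by
      rw [hP]; ring
    linarith
  have hPu : P ≤ (n : ℝ) ^ 2 := by
    have h3 : (n : ℝ) ^ 2 - P = ((n : ℝ) - 2 * s) ^ 2 := by rw [hP]; ring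
    have h4 := sq_nonneg ((n : ℝ) - 2 * s)
    linarith
  have hP0 : 0 < P := by
    have h3 := pow_pos hn0R 2
    linarith
  have hgP : gg n s = P⁻¹ := by
    unfold gg
    rw [if_pos hsn]
  have hn5 : (5 : ℝ) ≤ n := by
    refine le_trans ?_ hnlow
    have h3 : (1 : ℝ) ≤ (N : ℝ) ^ 5 := one_le_pow₀ hN1
    calc (5 : ℝ) = 5 * 1 := by norm_num
      _ ≤ (m : ℝ) * (N : ℝ) ^ 5 := mul_le_mul hmR h3 zero_le_one (by positivity)
  have hxeq : x = (1 + δ) * P / ‖z (i1 hm)‖ := by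
    rw [hx, hg0, hgP]
    field_simp
  have hx1 : 1 ≤ x := by
    rw [hxeq, le_div_iff₀ hz1', one_mul]
    have h3 : ‖z (i1 hm)‖ ≤ 2 := (hz0 _).le
    have h4 : 0 ≤ δ * P := mul_nonneg hδ0 hP0.le
    have h5 : (5 : ℝ) ^ 2 ≤ (n : ℝ) ^ 2 := by gcongr
    have h6 : (1 + δ) * P = P + δ * P := by ring
    rw [h6]
    linarith
  have hlam1 : 1 ≤ lam := by
    by_contra hcon
    push Not at hcon
    have := pow_lt_one₀ hlam0.le hcon (by omega : m ≠ 0)
    rw [hlamm] at this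
    linarith
  set Lam : ℝ := 2 * (m : ℝ) * (N : ℝ) ^ 2 with hLam
  have hLam0 : 0 < Lam := by positivity
  have hlamLam : lam ≤ Lam := by
    rw [← pow_le_pow_iff_left₀ hlam0.le hLam0.le (by omega : m ≠ 0), hlamm, hxeq,
      div_le_iff₀ hz1']
    have h3 : (1 + δ) * P ≤ 2 * (n : ℝ) ^ 2 := by
      have : (1 + δ) * P ≤ 2 * P := mul_le_mul_of_nonneg_right (by linarith) hP0.le
      linarith
    have h4 : 4 * (n : ℝ) ^ 2 ≤ Lam ^ m := by
      rw [hnR, hLam, mul_pow (2 * (m : ℝ)), ← pow_mul, mul_pow (m : ℝ), ← pow_mul, mul_comm 2 m,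
        ← mul_assoc]
      have h5 : (2 * (m : ℝ)) ^ 2 ≤ (2 * (m : ℝ)) ^ m :=
        pow_le_pow_right₀ (by linarith) (by omega)
      have h6 : (2 * (m : ℝ)) ^ 2 = 4 * (m : ℝ) ^ 2 := by ring
      rw [h6] at h5
      exact mul_le_mul_of_nonneg_right h5 (by positivity)
    have h7 : Lam ^ m * (1 / 2) ≤ Lam ^ m * ‖z (i1 hm)‖ :=
      mul_le_mul_of_nonneg_left hz1.le (by positivity)
    linarith
  set ε : ℝ := 1 / (4 * lam) with hε
  have hε0 : 0 < ε := by positivity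
  have hε1 : ε ≤ 1 := by
    rw [hε, div_le_one (by positivity)]
    linarith
  have hεlam : ε * (4 * lam) = 1 := by rw [hε]; field_simp
  set T : ℕ := ⌈4 * lam⌉₊ with hT
  have hTl : 4 * lam ≤ T := Nat.le_ceil _
  have hTu : (T : ℝ) ≤ 4 * lam + 1 := (Nat.ceil_lt_add_one (by positivity)).le
  have hTε : 1 ≤ T * ε := by
    calc (1 : ℝ) = (4 * lam) * ε := by rw [mul_comm, hεlam]
      _ ≤ T * ε := mul_le_mul_of_nonneg_right hTl hε0.le
  have hTε2 : T * ε ≤ 2 := by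
    calc T * ε ≤ (4 * lam + 1) * ε := mul_le_mul_of_nonneg_right hTu hε0.le
      _ = ε * (4 * lam) + ε := by ring
      _ ≤ 2 := by rw [hεlam]; linarith
  set L : ℕ := 3 * m + m * m * (T + 1) with hL
  have hLu : (L : ℝ) ≤ 18 * (m : ℝ) ^ 3 * (N : ℝ) ^ 2 := by
    have h3 : (T : ℝ) + 1 ≤ 8 * (m : ℝ) * (N : ℝ) ^ 2 + 2 := by
      rw [hLam] at hlamLam
      linarith
    have h4 : (L : ℝ) = 3 * m + m * m * (T + 1) := by rw [hL]; push_cast; ring
    have h5 : (m : ℝ) * m * ((T : ℝ) + 1) ≤ m * m * (8 * (m : ℝ) * (N : ℝ) ^ 2 + 2) := by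
      gcongr
    have h6 : (1 : ℝ) ≤ (N : ℝ) ^ 2 := one_le_pow₀ hN1
    have h7 : 3 * (m : ℝ) + 2 * m * m ≤ 10 * m ^ 3 * (N : ℝ) ^ 2 := by
      have h8 : (m : ℝ) ≤ m ^ 3 := le_self_pow₀ (by linarith) (by norm_num)
      have h9 : (m : ℝ) * m ≤ m ^ 3 := by
        rw [← sq]
        exact pow_le_pow_right₀ (by linarith) (by norm_num)
      have h10 : (m : ℝ) ^ 3 * 1 ≤ m ^ 3 * (N : ℝ) ^ 2 := by gcongr
      linarith
    rw [h4]
    have h11 : (m : ℝ) * m * (8 * (m : ℝ) * (N : ℝ) ^ 2 + 2) =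
        8 * (m : ℝ) ^ 3 * (N : ℝ) ^ 2 + 2 * m * m := by ring
    linarith
  have h8L : 8 * L ≤ n := by
    have h3 : 8 * (L : ℝ) ≤ n := by
      refine le_trans ?_ hnlow
      have h4 : 144 * (m : ℝ) ^ 2 ≤ (N : ℝ) ^ 3 := by
        have h5 : (m : ℝ) ^ 2 ≤ (m : ℝ) ^ 3 := pow_le_pow_right₀ (by linarith) (by norm_num)
        have h6 : (N : ℝ) ≤ (N : ℝ) ^ 3 := le_self_pow₀ hN1 (by norm_num)
        linarith
      have h5 : (m : ℝ) * (N : ℝ) ^ 2 * (144 * (m : ℝ) ^ 2) ≤ m * (N : ℝ) ^ 2 * (N : ℝ) ^ 3 := by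
        gcongr
      calc 8 * (L : ℝ) ≤ 8 * (18 * (m : ℝ) ^ 3 * (N : ℝ) ^ 2) := by gcongr
        _ = (m : ℝ) * (N : ℝ) ^ 2 * (144 * (m : ℝ) ^ 2) := by ring
        _ ≤ m * (N : ℝ) ^ 2 * (N : ℝ) ^ 3 := h5
        _ = m * (N : ℝ) ^ 5 := by ring
    exact_mod_cast h3
  have h6L : 6 * (L : ℝ) ≤ δ * n := by
    rw [hδn]
    linarith
  have hgg : ∀ t, s ≤ t → t ≤ s + L → g0 ≤ gg n t ∧ gg n t ≤ (1 + 3 * δ) * g0 :=
    fun t ht1 ht2 => gg_bounds hn0 h1 h2 ht1 ht2 h8L h6L (by linarith)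
  have h3δ : 3 * δ ≤ ε := by
    -- ε ≥ 1/(4 Lam) = 1/(8 m N²)
    have h3 : δ * (12 * lam) ≤ 1 := by
      calc δ * (12 * lam) ≤ δ * (12 * Lam) := by gcongr
        _ = δ * (24 * (m : ℝ) * (N : ℝ) ^ 2) := by rw [hLam]; ring
        _ ≤ 1 := hδ1
    rw [hε, le_div_iff₀ (by positivity)]
    linarith
  have hsL : s + L < n := by omega
  refine ⟨g0, lam, T, hg00, hlam1, hlamLam, hlamg, hTl, hTu, hsL, fun t ht1 ht2 => ?_⟩
  obtain ⟨hg1, hg2⟩ := hgg t ht1 ht2
  refine ⟨hg1, hg2.trans ?_, hg2.trans ?_⟩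
  · exact mul_le_mul_of_nonneg_right (by linarith) hg00.le
  · exact mul_le_mul_of_nonneg_right (by linarith) hg00.le

theorem local_bound {m : ℕ} (hm : 5 ≤ m) {z : Fin m → ℂ} (hz : z ∈ U hm) {N : ℕ}
    (hN : 10000 * m ^ 3 ≤ N) {n : ℕ} (hn : n = m * N ^ m) {s : ℕ} (h1 : n ≤ 4 * s)
    (h2 : 4 * s ≤ 3 * n) :
    ∃ g0 : ℝ, 0 < g0 ∧ s + 2 * m < n ∧
      (∀ t, s ≤ t → t ≤ s + 2 * m → g0 ≤ gg n t ∧ gg n t ≤ (1 + 1 / 100) * g0) ∧
      pm m / N ^ 4 * AA z n s ≤ g0 * g0 * AA z n (s + (2 * m - 2)) := by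
  obtain ⟨g0, lam, T, hg0, hlam1, hlamu, hlamg, hTl, hTu, hsn, hgg⟩ := setup hm hz hN hn h1 h2
  obtain ⟨hz0, hz1, hz2, hz3, hz4⟩ := hz
  have hmR : (5 : ℝ) ≤ m := by exact_mod_cast hm
  have hNR : 10000 * (m : ℝ) ^ 3 ≤ N := by exact_mod_cast hN
  have hm3 : (0 : ℝ) < (m : ℝ) ^ 3 := by positivity
  have hN0 : (0 : ℝ) < N := by linarith
  have hlam0 : 0 < lam := by linarith
  have hTT : m * m ≤ m * m * (T + 1) := Nat.le_mul_of_pos_right _ (by omega)
  have hmm : 2 * m ≤ m * m := Nat.mul_le_mul_right m (by omega)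
  refine ⟨g0, hg0, by omega, fun t ht1 ht2 => ⟨(hgg t ht1 (by omega)).1,
    (hgg t ht1 (by omega)).2.2⟩, ?_⟩
  have hz1' : 0 < ‖z (i1 hm)‖ := by linarith
  set ε : ℝ := 1 / (4 * lam) with hε
  have hε0 : 0 < ε := by positivity
  have hε1 : ε ≤ 1 := by
    rw [hε, div_le_one (by positivity)]
    linarith
  have hεlam : ε * (4 * lam) = 1 := by rw [hε]; field_simp
  have hTε : 1 ≤ T * ε := by
    calc (1 : ℝ) = (4 * lam) * ε := by rw [mul_comm, hεlam]
      _ ≤ T * ε := mul_le_mul_of_nonneg_right hTl hε0.le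
  have hTε2 : T * ε ≤ 2 := by
    calc T * ε ≤ (4 * lam + 1) * ε := mul_le_mul_of_nonneg_right hTu hε0.le
      _ = ε * (4 * lam) + ε := by ring
      _ ≤ 2 := by rw [hεlam]; linarith
  -- the normalised sums
  set B : ℕ → ℝ := fun t => AA z n t / lam ^ t with hB
  have hB0 : ∀ t, 0 ≤ B t := fun t => div_nonneg (AA_nonneg _ _ _) (by positivity)
  set β : ℕ → Fin m → ℝ := fun t a => ‖z a‖ * gg n (t + (a : ℕ) + 1) * lam ^ ((a : ℕ) + 1) with hβ
  have hβ0 : ∀ t a, 0 ≤ β t a := fun t a => mul_nonneg (mul_nonneg (norm_nonneg _) (gg_nonneg _ _))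
    (by positivity)
  have hBrec : ∀ t, t ≠ n → B t = ∑ a : Fin m, β t a * B (t + (a : ℕ) + 1) := by
    intro t ht
    simp only [hB, hβ]
    rw [AA_rec z ht, Finset.sum_div]
    refine Finset.sum_congr rfl fun a _ => ?_
    rw [add_assoc t, pow_add lam t]
    field_simp
  have hg0lam : g0 * lam ^ (m - 1) = 1 / (‖z (i1 hm)‖ * lam) := by
    rw [eq_div_iff (by positivity)]
    calc g0 * lam ^ (m - 1) * (‖z (i1 hm)‖ * lam)
        = ‖z (i1 hm)‖ * g0 * (lam ^ (m - 1) * lam) := by ring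
      _ = ‖z (i1 hm)‖ * g0 * lam ^ m := by rw [← pow_succ, Nat.sub_add_cancel (by omega)]
      _ = 1 := hlamg
  have hg0lam1 : 2 * ε ≤ g0 * lam ^ (m - 1) := by
    rw [hg0lam, hε, le_div_iff₀ (by positivity)]
    have : ‖z (i1 hm)‖ ≤ 2 := (hz0 _).le
    rw [mul_one_div, div_mul_eq_mul_div, div_le_one (by positivity)]
    nlinarith
  have hg0lam2 : g0 * lam ^ (m - 1) ≤ 8 * ε := by
    rw [hg0lam, hε, div_le_iff₀ (by positivity)]
    rw [mul_one_div, div_mul_eq_mul_div, one_le_div (by positivity)]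
    nlinarith
  -- bounds for the coefficients
  have hβ1 : ∀ t, s ≤ t → t ≤ s + 2 * m + m * m * (T + 1) →
      1 ≤ β t (i1 hm) ∧ β t (i1 hm) ≤ 1 + ε := by
    intro t ht1 ht2
    have e1 : t + ((i1 hm : Fin m) : ℕ) + 1 = t + m := by simp only [i1]; omega
    have e2 : ((i1 hm : Fin m) : ℕ) + 1 = m := by simp only [i1]; omega
    obtain ⟨hg1, hg2, hg3⟩ := hgg (t + m) (by omega) (by omega)
    simp only [hβ]
    rw [e1, e2]
    constructor
    · calc (1 : ℝ) = ‖z (i1 hm)‖ * g0 * lam ^ m := hlamg.symm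
        _ ≤ ‖z (i1 hm)‖ * gg n (t + m) * lam ^ m := by gcongr
    · calc ‖z (i1 hm)‖ * gg n (t + m) * lam ^ m
          ≤ ‖z (i1 hm)‖ * ((1 + ε) * g0) * lam ^ m := by gcongr
        _ = (1 + ε) * (‖z (i1 hm)‖ * g0 * lam ^ m) := by ring
        _ = 1 + ε := by rw [hlamg, mul_one]
  have hβ2 : ∀ t, s ≤ t → t ≤ s + 2 * m + m * m * (T + 1) → ε ≤ β t (i2 hm) := by
    intro t ht1 ht2
    have e1 : t + ((i2 hm : Fin m) : ℕ) + 1 = t + m - 1 := by simp only [i2]; omega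
    have e2 : ((i2 hm : Fin m) : ℕ) + 1 = m - 1 := by simp only [i2]; omega
    obtain ⟨hg1, hg2, hg3⟩ := hgg (t + m - 1) (by omega) (by omega)
    simp only [hβ]
    rw [e1, e2]
    calc ε = 1 / 2 * (2 * ε) := by ring
      _ ≤ 1 / 2 * (g0 * lam ^ (m - 1)) := by gcongr
      _ = 1 / 2 * g0 * lam ^ (m - 1) := by ring
      _ ≤ ‖z (i2 hm)‖ * gg n (t + m - 1) * lam ^ (m - 1) := by gcongr
  have hβ3 : ∀ t, s ≤ t → t ≤ s + 2 * m + m * m * (T + 1) → ∀ a, a ≠ i1 hm → β t a ≤ 32 * ε := by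
    intro t ht1 ht2 a ha
    have ha2 : (a : ℕ) + 1 ≤ m - 1 := by
      have h3 := a.isLt
      have h4 : (a : ℕ) ≠ m - 1 := fun h => ha (Fin.ext h)
      omega
    obtain ⟨hg1, hg2, hg3⟩ := hgg (t + (a : ℕ) + 1) (by omega) (by omega)
    simp only [hβ]
    calc ‖z a‖ * gg n (t + (a : ℕ) + 1) * lam ^ ((a : ℕ) + 1)
        ≤ 2 * ((1 + 1 / 100) * g0) * lam ^ (m - 1) := by
          gcongr
          · exact gg_nonneg _ _
          · exact (hz0 a).le
      _ = 101 / 50 * (g0 * lam ^ (m - 1)) := by ring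
      _ ≤ 101 / 50 * (8 * ε) := by gcongr
      _ ≤ 32 * ε := by linarith
  have hup : ∀ t, s ≤ t → t ≤ s + 2 * m + m * m * (T + 1) →
      ∀ M, (∀ i, 1 ≤ i → i ≤ m → B (t + i) ≤ M) → B t ≤ (1 + 33 * m * ε) * M := by
    intro t ht1 ht2 M hM
    have hM0 : 0 ≤ M := (hB0 _).trans (hM 1 le_rfl (by omega))
    rw [hBrec t (by omega)]
    calc ∑ a : Fin m, β t a * B (t + (a : ℕ) + 1) ≤ ∑ a : Fin m, β t a * M := by
          refine Finset.sum_le_sum fun a _ => mul_le_mul_of_nonneg_left ?_ (hβ0 t a)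
          have := hM ((a : ℕ) + 1) (by omega) (by omega)
          rwa [← add_assoc] at this
      _ = (∑ a : Fin m, β t a) * M := by rw [Finset.sum_mul]
      _ ≤ (1 + 33 * m * ε) * M := by
          refine mul_le_mul_of_nonneg_right ?_ hM0
          rw [← Finset.add_sum_erase _ _ (Finset.mem_univ (i1 hm))]
          have h3 : ∑ a ∈ Finset.univ.erase (i1 hm), β t a ≤ m * (32 * ε) := by
            calc ∑ a ∈ Finset.univ.erase (i1 hm), β t a
                ≤ ∑ a ∈ Finset.univ.erase (i1 hm), 32 * ε :=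
                  Finset.sum_le_sum fun a ha => hβ3 t ht1 ht2 a (Finset.ne_of_mem_erase ha)
              _ ≤ ∑ _a : Fin m, 32 * ε :=
                  Finset.sum_le_sum_of_subset_of_nonneg (Finset.erase_subset _ _)
                    fun _ _ _ => by positivity
              _ = m * (32 * ε) := by rw [Finset.sum_const, Finset.card_univ, Fintype.card_fin,
                  nsmul_eq_mul]
          have h4 := (hβ1 t ht1 ht2).2
          have h5 : ε ≤ m * ε := by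
            have : 1 * ε ≤ m * ε := mul_le_mul_of_nonneg_right (by linarith) hε0.le
            linarith
          linarith
  have hlow : ∀ t, s ≤ t → t ≤ s + 2 * m + m * m * (T + 1) →
      B (t + m) + ε * B (t + m - 1) ≤ B t := by
    intro t ht1 ht2
    rw [hBrec t (by omega), ← Finset.add_sum_erase _ _ (Finset.mem_univ (i1 hm)),
      ← Finset.add_sum_erase (Finset.univ.erase (i1 hm)) _ (a := i2 hm)
        (Finset.mem_erase.2 ⟨fun h => by
          have := congrArg Fin.val h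
          simp only [i1, i2] at this
          omega, Finset.mem_univ _⟩)]
    have e1 : t + ((i1 hm : Fin m) : ℕ) + 1 = t + m := by simp only [i1]; omega
    have e2 : t + ((i2 hm : Fin m) : ℕ) + 1 = t + m - 1 := by simp only [i2]; omega
    rw [e1, e2]
    have h3 : 1 * B (t + m) ≤ β t (i1 hm) * B (t + m) :=
      mul_le_mul_of_nonneg_right (hβ1 t ht1 ht2).1 (hB0 _)
    have h4 : ε * B (t + m - 1) ≤ β t (i2 hm) * B (t + m - 1) :=
      mul_le_mul_of_nonneg_right (hβ2 t ht1 ht2) (hB0 _)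
    have h5 : 0 ≤ ∑ x ∈ (Finset.univ.erase (i1 hm)).erase (i2 hm), β t x * B (t + (x : ℕ) + 1) :=
      Finset.sum_nonneg fun a _ => mul_nonneg (hβ0 _ _) (hB0 _)
    linarith
  have hmain := harnack (by omega : 2 ≤ m) (by positivity : (0 : ℝ) ≤ 33 * m) hε0 hTε hTε2 hε1 hB0
    hup hlow
  -- conclusion
  set c : ℝ := Real.exp (-(33 * m * (3 * m + 3 * m * m))) with hc
  have hc0 : 0 < c := Real.exp_pos _
  have hA1 : AA z n s = B s * lam ^ s := by simp only [hB]; field_simp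
  have hA2 : AA z n (s + (2 * m - 2)) = B (s + (2 * m - 2)) * (lam ^ s * (lam ^ (m - 1) * lam ^ (m - 1))) := by
    have e : lam ^ s * (lam ^ (m - 1) * lam ^ (m - 1)) = lam ^ (s + (2 * m - 2)) := by
      rw [← pow_add, ← pow_add]
      congr 1
      omega
    rw [e]
    simp only [hB]
    field_simp
  have hcoef : 1 / (16 * (m : ℝ) ^ 2) / N ^ 4 ≤ (g0 * lam ^ (m - 1)) * (g0 * lam ^ (m - 1)) := by
    have h3 : 2 * ε * (2 * ε) ≤ (g0 * lam ^ (m - 1)) * (g0 * lam ^ (m - 1)) :=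
      mul_le_mul hg0lam1 hg0lam1 (by positivity) (by positivity)
    refine le_trans ?_ h3
    have h4 : 1 / (4 * (m : ℝ) * (N : ℝ) ^ 2) ≤ 2 * ε := by
      rw [hε, mul_one_div, div_le_div_iff₀ (by positivity) (by positivity)]
      nlinarith
    calc 1 / (16 * (m : ℝ) ^ 2) / N ^ 4
        = 1 / (4 * (m : ℝ) * (N : ℝ) ^ 2) * (1 / (4 * (m : ℝ) * (N : ℝ) ^ 2)) := by
          field_simp
          ring
      _ ≤ 2 * ε * (2 * ε) := mul_le_mul h4 h4 (by positivity) (by positivity)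
  calc pm m / N ^ 4 * AA z n s
      = (1 / (16 * (m : ℝ) ^ 2) / N ^ 4) * ((c * B s) * lam ^ s) := by
        rw [hA1, pm, ← hc]
        ring
    _ ≤ ((g0 * lam ^ (m - 1)) * (g0 * lam ^ (m - 1))) * (B (s + (2 * m - 2)) * lam ^ s) := by
        have h5 : c * B s * lam ^ s ≤ B (s + (2 * m - 2)) * lam ^ s :=
          mul_le_mul_of_nonneg_right hmain (by positivity)
        exact mul_le_mul hcoef h5 (mul_nonneg (mul_nonneg hc0.le (hB0 _)) (by positivity))
          (by positivity)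
    _ = g0 * g0 * AA z n (s + (2 * m - 2)) := by rw [hA2]; ring

/-! ### The decay of `‖SS‖ / AA` -/

theorem SS_part {m : ℕ} (z : Fin m → ℂ) (n s : ℕ) (E : Finset (Fin m)) {D : ℝ}
    (h : ∀ a ∈ E, ‖SS z n (s + (a : ℕ) + 1)‖ ≤ D * AA z n (s + (a : ℕ) + 1)) :
    ‖∑ a ∈ E, z a * gg n (s + (a : ℕ) + 1) * SS z n (s + (a : ℕ) + 1)‖ ≤
      D * ∑ a ∈ E, ‖z a‖ * gg n (s + (a : ℕ) + 1) * AA z n (s + (a : ℕ) + 1) := by
  rw [Finset.mul_sum]
  refine (norm_sum_le _ _).trans (Finset.sum_le_sum fun a ha => ?_)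
  rw [norm_mul, norm_mul, Complex.norm_real, Real.norm_of_nonneg (gg_nonneg _ _)]
  calc ‖z a‖ * gg n (s + (a : ℕ) + 1) * ‖SS z n (s + (a : ℕ) + 1)‖
      ≤ ‖z a‖ * gg n (s + (a : ℕ) + 1) * (D * AA z n (s + (a : ℕ) + 1)) :=
        mul_le_mul_of_nonneg_left (h a ha) (mul_nonneg (norm_nonneg _) (gg_nonneg _ _))
    _ = _ := by ring

theorem one_step {m : ℕ} (z : Fin m → ℂ) {n s : ℕ} (hs : s ≠ n) {D : ℝ}
    (h : ∀ t, s < t → t ≤ s + m → ‖SS z n t‖ ≤ D * AA z n t) :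
    ‖SS z n s‖ ≤ D * AA z n s := by
  rw [SS_rec z hs, AA_rec z hs]
  exact SS_part z n s _ fun a _ => h _ (by omega) (by omega)

theorem i1_ne_i2 {m : ℕ} (hm : 5 ≤ m) : i2 hm ≠ i1 hm := fun h => by
  have := congrArg Fin.val h
  simp only [i1, i2] at this
  omega

theorem slot_step {m : ℕ} (hm : 5 ≤ m) {z : Fin m → ℂ} (hz : z ∈ U hm) {N : ℕ}
    (hN : 10000 * m ^ 3 ≤ N) {n : ℕ} (hn : n = m * N ^ m) {s : ℕ} (h1 : n ≤ 4 * s)
    (h2 : 4 * s ≤ 3 * n) {D : ℝ} (hD : 0 ≤ D)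
    (h : ∀ t, s < t → t ≤ s + 2 * m → ‖SS z n t‖ ≤ D * AA z n t) :
    ‖SS z n s‖ ≤ D * ((1 - pm m / (8 * N ^ 4)) * AA z n s) := by
  obtain ⟨g0, hg0, hsn, hgg, hmass⟩ := local_bound hm hz hN hn h1 h2
  obtain ⟨hz0, hz1, hz2, hz3, hz4⟩ := hz
  -- names
  set g1 := gg n (s + m) with hg1
  set g2 := gg n (s + m - 1) with hg2
  set g3 := gg n (s + (2 * m - 2)) with hg3
  obtain ⟨hg1l, hg1u⟩ := hgg (s + m) (by omega) (by omega)
  obtain ⟨hg2l, hg2u⟩ := hgg (s + m - 1) (by omega) (by omega)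
  obtain ⟨hg3l, hg3u⟩ := hgg (s + (2 * m - 2)) (by omega) (by omega)
  rw [← hg1] at hg1l hg1u
  rw [← hg2] at hg2l hg2u
  rw [← hg3] at hg3l hg3u
  set y1 := z (i1 hm) with hy1
  set y2 := z (i2 hm) with hy2
  set y3 := z (i3 hm) with hy3
  -- remainders
  set E : Finset (Fin m) := (Finset.univ.erase (i1 hm)).erase (i2 hm) with hE
  set RS : ℂ := ∑ a ∈ E, z a * gg n (s + (a : ℕ) + 1) * SS z n (s + (a : ℕ) + 1) with hRS
  set RA : ℝ := ∑ a ∈ E, ‖z a‖ * gg n (s + (a : ℕ) + 1) * AA z n (s + (a : ℕ) + 1) with hRA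
  set RS1 : ℂ := ∑ a ∈ Finset.univ.erase (i3 hm),
    z a * gg n (s + m + (a : ℕ) + 1) * SS z n (s + m + (a : ℕ) + 1) with hRS1
  set RA1 : ℝ := ∑ a ∈ Finset.univ.erase (i3 hm),
    ‖z a‖ * gg n (s + m + (a : ℕ) + 1) * AA z n (s + m + (a : ℕ) + 1) with hRA1
  set RS2 : ℂ := ∑ a ∈ Finset.univ.erase (i2 hm),
    z a * gg n (s + m - 1 + (a : ℕ) + 1) * SS z n (s + m - 1 + (a : ℕ) + 1) with hRS2
  set RA2 : ℝ := ∑ a ∈ Finset.univ.erase (i2 hm),
    ‖z a‖ * gg n (s + m - 1 + (a : ℕ) + 1) * AA z n (s + m - 1 + (a : ℕ) + 1) with hRA2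
  set SE := SS z n (s + (2 * m - 2)) with hSE
  set AE := AA z n (s + (2 * m - 2)) with hAE
  have eS : SS z n s = y1 * g1 * (y3 * g3 * SE + RS1) + (y2 * g2 * (y2 * g3 * SE + RS2) + RS) := by
    have a1 : SS z n (s + m) = y3 * g3 * SE + RS1 := by
      rw [SS_rec z (by omega : s + m ≠ n), ← Finset.add_sum_erase _ _ (Finset.mem_univ (i3 hm))]
      rw [show s + m + ((i3 hm : Fin m) : ℕ) + 1 = s + (2 * m - 2) by simp only [i3]; omega]
    have a2 : SS z n (s + m - 1) = y2 * g3 * SE + RS2 := by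
      rw [SS_rec z (by omega : s + m - 1 ≠ n), ← Finset.add_sum_erase _ _ (Finset.mem_univ (i2 hm))]
      rw [show s + m - 1 + ((i2 hm : Fin m) : ℕ) + 1 = s + (2 * m - 2) by simp only [i2]; omega]
    rw [SS_rec z (by omega : s ≠ n), ← Finset.add_sum_erase _ _ (Finset.mem_univ (i1 hm)),
      ← Finset.add_sum_erase (Finset.univ.erase (i1 hm)) _ (a := i2 hm)
        (Finset.mem_erase.2 ⟨i1_ne_i2 hm, Finset.mem_univ _⟩)]
    rw [show s + ((i1 hm : Fin m) : ℕ) + 1 = s + m by simp only [i1]; omega,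
      show s + ((i2 hm : Fin m) : ℕ) + 1 = s + m - 1 by simp only [i2]; omega, a1, a2]
  have eA : AA z n s = ‖y1‖ * g1 * (‖y3‖ * g3 * AE + RA1) +
      (‖y2‖ * g2 * (‖y2‖ * g3 * AE + RA2) + RA) := by
    have a1 : AA z n (s + m) = ‖y3‖ * g3 * AE + RA1 := by
      rw [AA_rec z (by omega : s + m ≠ n), ← Finset.add_sum_erase _ _ (Finset.mem_univ (i3 hm))]
      rw [show s + m + ((i3 hm : Fin m) : ℕ) + 1 = s + (2 * m - 2) by simp only [i3]; omega]
    have a2 : AA z n (s + m - 1) = ‖y2‖ * g3 * AE + RA2 := by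
      rw [AA_rec z (by omega : s + m - 1 ≠ n), ← Finset.add_sum_erase _ _ (Finset.mem_univ (i2 hm))]
      rw [show s + m - 1 + ((i2 hm : Fin m) : ℕ) + 1 = s + (2 * m - 2) by simp only [i2]; omega]
    rw [AA_rec z (by omega : s ≠ n), ← Finset.add_sum_erase _ _ (Finset.mem_univ (i1 hm)),
      ← Finset.add_sum_erase (Finset.univ.erase (i1 hm)) _ (a := i2 hm)
        (Finset.mem_erase.2 ⟨i1_ne_i2 hm, Finset.mem_univ _⟩)]
    rw [show s + ((i1 hm : Fin m) : ℕ) + 1 = s + m by simp only [i1]; omega,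
      show s + ((i2 hm : Fin m) : ℕ) + 1 = s + m - 1 by simp only [i2]; omega, a1, a2]
  have bR : ‖RS‖ ≤ D * RA := SS_part z n s E fun a _ => h _ (by omega) (by omega)
  have bR1 : ‖RS1‖ ≤ D * RA1 := SS_part z n (s + m) _ fun a _ => h _ (by omega) (by omega)
  have bR2 : ‖RS2‖ ≤ D * RA2 := SS_part z n (s + m - 1) _ fun a _ => h _ (by omega) (by omega)
  have bE : ‖SE‖ ≤ D * AE := h _ (by omega) (by omega)
  have hAE0 : 0 ≤ AE := AA_nonneg _ _ _
  -- the cancellation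
  have hcan : ‖y1 * y3 * g1 + y2 ^ 2 * g2‖ ≤ 1 / 2 * (‖y1‖ * ‖y3‖ * g1 + ‖y2‖ ^ 2 * g2) := by
    have e : y1 * y3 * g1 + y2 ^ 2 * g2 = (y2 ^ 2 + y1 * y3) * (g2 : ℂ) +
        y1 * y3 * ((g1 - g2 : ℝ) : ℂ) := by push_cast; ring
    have n1 : ‖(y2 ^ 2 + y1 * y3) * (g2 : ℂ)‖ ≤ 1 / 16 * g2 := by
      rw [norm_mul, Complex.norm_real, Real.norm_of_nonneg (by linarith)]
      exact mul_le_mul_of_nonneg_right hz4.le (by linarith)
    have n2 : ‖y1 * y3 * ((g1 - g2 : ℝ) : ℂ)‖ ≤ 4 * (1 / 100 * g0) := by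
      rw [norm_mul, norm_mul, Complex.norm_real]
      have n3 : ‖g1 - g2‖ ≤ 1 / 100 * g0 := by
        rw [Real.norm_eq_abs, abs_le]
        constructor <;> linarith
      calc ‖y1‖ * ‖y3‖ * ‖g1 - g2‖ ≤ 2 * 2 * (1 / 100 * g0) := by
            gcongr
            · exact (hz0 _).le
            · exact (hz0 _).le
        _ = 4 * (1 / 100 * g0) := by ring
    have n4 : 1 / 4 * g2 ≤ ‖y2‖ ^ 2 * g2 := by
      have : 1 / 4 ≤ ‖y2‖ ^ 2 := by nlinarith
      exact mul_le_mul_of_nonneg_right this (by linarith)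
    have n5 : 0 ≤ ‖y1‖ * ‖y3‖ * g1 := mul_nonneg (mul_nonneg (norm_nonneg _) (norm_nonneg _))
      (by linarith)
    rw [e]
    refine (norm_add_le _ _).trans ?_
    linarith
  have hX : 1 / 4 * (g0 * g0 * AE) ≤ (‖y1‖ * ‖y3‖ * g1 + ‖y2‖ ^ 2 * g2) * g3 * AE := by
    have n4 : 1 / 4 * g0 ≤ ‖y2‖ ^ 2 * g2 := by
      have : 1 / 4 ≤ ‖y2‖ ^ 2 := by nlinarith
      exact mul_le_mul this hg2l hg0.le (by positivity)
    have n5 : 0 ≤ ‖y1‖ * ‖y3‖ * g1 := mul_nonneg (mul_nonneg (norm_nonneg _) (norm_nonneg _))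
      (by linarith)
    have n6 : 1 / 4 * g0 * g0 ≤ (‖y1‖ * ‖y3‖ * g1 + ‖y2‖ ^ 2 * g2) * g3 :=
      mul_le_mul (by linarith) hg3l hg0.le (by linarith)
    have n7 := mul_le_mul_of_nonneg_right n6 hAE0
    linarith
  have e2 : SS z n s = y1 * g1 * RS1 + y2 * g2 * RS2 + RS +
      (y1 * y3 * g1 + y2 ^ 2 * g2) * g3 * SE := by
    rw [eS]; ring
  have g10 : 0 ≤ g1 := by linarith
  have g20 : 0 ≤ g2 := by linarith
  have g30 : 0 ≤ g3 := by linarith
  have m1 : ‖y1 * g1 * RS1‖ ≤ D * (‖y1‖ * g1 * RA1) := by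
    rw [norm_mul, norm_mul, Complex.norm_real, Real.norm_of_nonneg g10]
    calc ‖y1‖ * g1 * ‖RS1‖ ≤ ‖y1‖ * g1 * (D * RA1) :=
          mul_le_mul_of_nonneg_left bR1 (mul_nonneg (norm_nonneg _) g10)
      _ = _ := by ring
  have m2 : ‖y2 * g2 * RS2‖ ≤ D * (‖y2‖ * g2 * RA2) := by
    rw [norm_mul, norm_mul, Complex.norm_real, Real.norm_of_nonneg g20]
    calc ‖y2‖ * g2 * ‖RS2‖ ≤ ‖y2‖ * g2 * (D * RA2) :=
          mul_le_mul_of_nonneg_left bR2 (mul_nonneg (norm_nonneg _) g20)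
      _ = _ := by ring
  have m3 : ‖(y1 * y3 * g1 + y2 ^ 2 * g2) * g3 * SE‖ ≤
      D * (1 / 2 * ((‖y1‖ * ‖y3‖ * g1 + ‖y2‖ ^ 2 * g2) * g3 * AE)) := by
    rw [norm_mul, norm_mul, Complex.norm_real, Real.norm_of_nonneg g30]
    calc ‖y1 * y3 * g1 + y2 ^ 2 * g2‖ * g3 * ‖SE‖
        ≤ 1 / 2 * (‖y1‖ * ‖y3‖ * g1 + ‖y2‖ ^ 2 * g2) * g3 * (D * AE) := by gcongr
      _ = _ := by ring
  have htot : ‖SS z n s‖ ≤ D * (AA z n s -
      1 / 2 * ((‖y1‖ * ‖y3‖ * g1 + ‖y2‖ ^ 2 * g2) * g3 * AE)) := by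
    rw [e2]
    refine (norm_add_le _ _).trans ?_
    have k1 := (norm_add_le (y1 * g1 * RS1 + y2 * g2 * RS2) RS)
    have k2 := norm_add_le (y1 * (g1 : ℂ) * RS1) (y2 * g2 * RS2)
    have k3 : D * (AA z n s - 1 / 2 * ((‖y1‖ * ‖y3‖ * g1 + ‖y2‖ ^ 2 * g2) * g3 * AE)) =
        D * (‖y1‖ * g1 * RA1) + D * (‖y2‖ * g2 * RA2) + D * RA +
        D * (1 / 2 * ((‖y1‖ * ‖y3‖ * g1 + ‖y2‖ ^ 2 * g2) * g3 * AE)) := by
      rw [eA]; ring
    rw [k3]
    linarith
  refine htot.trans (mul_le_mul_of_nonneg_left ?_ hD)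
  have k4 : pm m / (8 * N ^ 4) * AA z n s = 1 / 8 * (pm m / N ^ 4 * AA z n s) := by
    rw [mul_comm (8 : ℝ), ← div_div]
    ring
  have k5 : (1 - pm m / (8 * N ^ 4)) * AA z n s = AA z n s - pm m / (8 * N ^ 4) * AA z n s := by
    ring
  rw [k5, k4]
  linarith

theorem pm_pos {m : ℕ} (hm : 5 ≤ m) : 0 < pm m := by
  have : (0 : ℝ) < m := by exact_mod_cast (by omega : 0 < m)
  unfold pm
  positivity

theorem pm_le {m : ℕ} (hm : 5 ≤ m) : pm m ≤ 1 := by
  have h0 : (5 : ℝ) ≤ m := by exact_mod_cast hm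
  unfold pm
  rw [div_le_one (by positivity)]
  have h1 : Real.exp (-(33 * (m : ℝ) * (3 * m + 3 * m * m))) ≤ 1 := by
    rw [Real.exp_le_one_iff]
    have : (0 : ℝ) ≤ 33 * (m : ℝ) * (3 * m + 3 * m * m) := by positivity
    linarith
  nlinarith

theorem decay {m : ℕ} (hm : 5 ≤ m) {z : Fin m → ℂ} (hz : z ∈ U hm) {N : ℕ}
    (hN : 10000 * m ^ 3 ≤ N) {n : ℕ} (hn : n = m * N ^ m)
    (hθ : 0 ≤ 1 - pm m / (8 * N ^ 4)) :
    ∀ k t, n ≤ 4 * t → 4 * (t + 2 * m * k) ≤ 3 * n →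
      ‖SS z n t‖ ≤ (1 - pm m / (8 * N ^ 4)) ^ k * AA z n t := by
  intro k
  induction k with
  | zero =>
    intro t _ _
    rw [pow_zero, one_mul]
    exact SS_le z n t
  | succ k ih =>
    intro t h1 h2
    have e : 2 * m * (k + 1) = 2 * m * k + 2 * m := by ring
    rw [pow_succ, mul_assoc]
    exact slot_step hm hz hN hn h1 (by omega) (pow_nonneg hθ k)
      fun t' h3 h4 => ih t' (by omega) (by omega)

theorem decay0 {m : ℕ} (hm : 5 ≤ m) {z : Fin m → ℂ} (hz : z ∈ U hm) {N : ℕ}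
    (hN : 10000 * m ^ 3 ≤ N) {n : ℕ} (hn : n = m * N ^ m)
    (hθ : 0 ≤ 1 - pm m / (8 * N ^ 4)) {k sa : ℕ} (hsa : n ≤ 4 * sa)
    (hk : 4 * (sa + m + 2 * m * k) ≤ 3 * n) (hn0 : 0 < n) :
    ∀ d t, t + d = sa + m →
      ‖SS z n t‖ ≤ (1 - pm m / (8 * N ^ 4)) ^ k * AA z n t := by
  intro d
  induction d using Nat.strong_induction_on with
  | _ d ih =>
    intro t ht
    by_cases h : sa ≤ t
    · exact decay hm hz hN hn hθ k t (by omega) (by omega)
    · refine one_step z (by omega) fun t' h1 h2 => ?_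
      exact ih (sa + m - t') (by omega) t' (by omega)

theorem AA_pos {m : ℕ} (hm : 5 ≤ m) {z : Fin m → ℂ} (hz : z ∈ U hm) (q : ℕ) :
    ∀ j i, i + j = q → 0 < AA z (m * q) (m * i) := by
  intro j
  induction j with
  | zero =>
    intro i hi
    rw [show i = q by omega, AA_self]
    exact zero_lt_one
  | succ j ih =>
    intro i hi
    have h1 := ih (i + 1) (by omega)
    have hlt : m * i < m * q := Nat.mul_lt_mul_of_pos_left (by omega) (by omega)
    rw [AA_rec z (by omega : m * i ≠ m * q)]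
    have e : m * i + ((i1 hm : Fin m) : ℕ) + 1 = m * (i + 1) := by
      simp only [i1]
      rw [mul_add]
      omega
    have h2 : 0 < ‖z (i1 hm)‖ * gg (m * q) (m * i + ((i1 hm : Fin m) : ℕ) + 1) *
        AA z (m * q) (m * i + ((i1 hm : Fin m) : ℕ) + 1) := by
      rw [e]
      refine mul_pos (mul_pos (by linarith [hz.2.1]) (gg_pos ?_)) h1
      have : 0 < m * (i + 1) := Nat.mul_pos (by omega) (by omega)
      omega
    refine lt_of_lt_of_le h2 ?_
    exact Finset.single_le_sum (f := fun a : Fin m => ‖z a‖ * gg (m * q) (m * i + (a : ℕ) + 1) *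
      AA z (m * q) (m * i + (a : ℕ) + 1)) (fun a _ =>
      mul_nonneg (mul_nonneg (norm_nonneg _) (gg_nonneg _ _)) (AA_nonneg _ _ _))
      (Finset.mem_univ (i1 hm))

theorem U_subset_W {m : ℕ} (hm : 5 ≤ m) : U hm ⊆ W m := by
  intro z hz
  rintro ⟨C, hC⟩
  set C' : ℝ := max C 1 with hC'
  have hC'0 : 0 < C' := lt_of_lt_of_le one_pos (le_max_right _ _)
  have hp := pm_pos hm
  obtain ⟨N1, hN1⟩ := exists_nat_gt (C' / (pm m / 128))
  set N : ℕ := max N1 (10000 * m ^ 3) with hNdef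
  have hN : 10000 * m ^ 3 ≤ N := le_max_right _ _
  have hN2 : C' / (pm m / 128) < N := lt_of_lt_of_le hN1 (by exact_mod_cast le_max_left _ _)
  rw [div_lt_iff₀ (by positivity)] at hN2
  have hm3 : 1 ≤ m ^ 3 := Nat.one_le_pow _ _ (by omega)
  have hNbig : 10000 ≤ N := by omega
  have hNR : (10000 : ℝ) ≤ N := by exact_mod_cast hNbig
  have hN0 : (0 : ℝ) < N := by linarith
  set q := N ^ m with hq
  set n := m * q with hn
  have hqR : (N : ℝ) ^ 5 ≤ (q : ℝ) := by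
    rw [hq]
    push_cast
    exact pow_le_pow_right₀ (by linarith) hm
  have hN5 : (N : ℝ) ≤ (N : ℝ) ^ 5 := le_self_pow₀ (by linarith) (by norm_num)
  have hNq : N ≤ q := by
    have : (N : ℝ) ≤ q := by linarith
    exact_mod_cast this
  have hnq : 5 * q ≤ n := Nat.mul_le_mul_right q hm
  have hmn : 5 * m ≤ n := by
    rw [hn, mul_comm]
    exact Nat.mul_le_mul_left m (by omega)
  set x : ℝ := pm m / (8 * N ^ 4) with hx
  have hN4 : (1 : ℝ) ≤ (N : ℝ) ^ 4 := one_le_pow₀ (by linarith)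
  have hx1 : x ≤ 1 := by
    rw [hx, div_le_one (by positivity)]
    linarith [pm_le hm]
  set k := q / 8 with hk
  have h8k : 8 * k ≤ q := Nat.mul_div_le q 8
  have h8k2 : q ≤ 8 * k + 7 := by omega
  have h2mk : 4 * (2 * m * k) ≤ n := by
    calc 4 * (2 * m * k) = m * (8 * k) := by ring
      _ ≤ m * q := Nat.mul_le_mul_left m h8k
  have hkey := decay0 hm hz hN (hn : n = m * N ^ m) (by linarith : 0 ≤ 1 - x) (k := k)
    (sa := n / 4 + 1) (by omega) (by omega) (by omega) (n / 4 + 1 + m) 0 (by omega)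
  have hApos : 0 < AA z n 0 := by
    have := AA_pos hm hz q q 0 (by omega)
    rwa [mul_zero] at this
  have hθ : (1 - x) ^ k ≤ Real.exp (-(pm m / 128 * N)) := by
    have hkR : (N : ℝ) ^ 5 / 16 ≤ k := by
      have h1 : (q : ℝ) ≤ 8 * k + 7 := by exact_mod_cast h8k2
      have h2 : (14 : ℝ) ≤ (N : ℝ) ^ 5 := by linarith
      linarith
    calc (1 - x) ^ k ≤ (Real.exp (-x)) ^ k := by
          refine pow_le_pow_left₀ (by linarith) ?_ k
          have := Real.add_one_le_exp (-x)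
          linarith
      _ = Real.exp (k * (-x)) := by rw [Real.exp_nat_mul]
      _ ≤ Real.exp (-(pm m / 128 * N)) := by
          apply Real.exp_le_exp.2
          have hx0 : 0 ≤ x := by positivity
          have h3 : (N : ℝ) ^ 5 / 16 * x ≤ k * x := mul_le_mul_of_nonneg_right hkR hx0
          have h4 : (N : ℝ) ^ 5 / 16 * x = pm m / 128 * N := by
            rw [hx]
            field_simp
            ring
          linarith
  have hexp : C' * Real.exp (-(pm m / 128 * N)) < 1 := by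
    rw [Real.exp_neg, ← div_eq_mul_inv, div_lt_one (Real.exp_pos _)]
    have := Real.add_one_le_exp (pm m / 128 * N)
    linarith
  have hn1 : 1 ≤ n := by omega
  have hfin := hC n
  rw [A_eq z hn1, S_eq z hn1] at hfin
  have h5 : C * ‖SS z n 0‖ ≤ C' * ‖SS z n 0‖ :=
    mul_le_mul_of_nonneg_right (le_max_left _ _) (norm_nonneg _)
  have h6 : C' * ‖SS z n 0‖ ≤ C' * (Real.exp (-(pm m / 128 * N)) * AA z n 0) :=
    mul_le_mul_of_nonneg_left (hkey.trans (mul_le_mul_of_nonneg_right hθ hApos.le)) hC'0.le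
  have h7 : C' * Real.exp (-(pm m / 128 * N)) * AA z n 0 < 1 * AA z n 0 :=
    mul_lt_mul_of_pos_right hexp hApos
  linarith

theorem U_open {m : ℕ} (hm : 5 ≤ m) : IsOpen (U hm) := by
  have e : U hm = (⋂ a, {z : Fin m → ℂ | ‖z a‖ < 2}) ∩ ({z : Fin m → ℂ | 1 / 2 < ‖z (i1 hm)‖} ∩
      ({z : Fin m → ℂ | 1 / 2 < ‖z (i2 hm)‖} ∩ ({z : Fin m → ℂ | 1 / 2 < ‖z (i3 hm)‖} ∩
      {z : Fin m → ℂ | ‖z (i2 hm) ^ 2 + z (i1 hm) * z (i3 hm)‖ < 1 / 16}))) := by
    ext z
    simp [U]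
  rw [e]
  refine IsOpen.inter (isOpen_iInter_of_finite fun a => isOpen_lt (by fun_prop) (by fun_prop)) ?_
  refine IsOpen.inter (isOpen_lt (by fun_prop) (by fun_prop)) ?_
  refine IsOpen.inter (isOpen_lt (by fun_prop) (by fun_prop)) ?_
  refine IsOpen.inter (isOpen_lt (by fun_prop) (by fun_prop)) ?_
  exact isOpen_lt (by fun_prop) (by fun_prop)

theorem U_nonempty {m : ℕ} (hm : 5 ≤ m) : (U hm).Nonempty := by
  refine ⟨fun a => if a = i3 hm then -1 else 1, fun a => ?_, ?_, ?_, ?_, ?_⟩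
  · show ‖(if a = i3 hm then (-1 : ℂ) else 1)‖ < 2
    split_ifs <;> norm_num
  · show 1 / 2 < ‖(if i1 hm = i3 hm then (-1 : ℂ) else 1)‖
    split_ifs <;> norm_num
  · show 1 / 2 < ‖(if i2 hm = i3 hm then (-1 : ℂ) else 1)‖
    split_ifs <;> norm_num
  · show 1 / 2 < ‖(if i3 hm = i3 hm then (-1 : ℂ) else 1)‖
    split_ifs <;> norm_num
  · have h1 : i1 hm ≠ i3 hm := fun h => by
      have := congrArg Fin.val h
      simp only [i1, i3] at this
      omega
    have h2 : i2 hm ≠ i3 hm := fun h => by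
      have := congrArg Fin.val h
      simp only [i2, i3] at this
      omega
    simp [h1, h2]

/-- For every `m ≥ 5` the set `W` has nonempty interior, hence positive Lebesgue measure; so the
statement of Q1 is false. -/
theorem result :
    (∀ m : ℕ, 5 ≤ m → (interior (W m)).Nonempty ∧ 0 < MeasureTheory.volume (W m)) ∧
    ¬ ∀ m : ℕ, 1 ≤ m → ∀ᵐ z : Fin m → ℂ, ∃ C : ℝ, ∀ n : ℕ, A z n ≤ C * ‖S z n‖ := by
  have main : ∀ m : ℕ, 5 ≤ m → (interior (W m)).Nonempty ∧ 0 < MeasureTheory.volume (W m) := by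
    intro m hm
    refine ⟨(U_nonempty hm).mono (interior_maximal (U_subset_W hm) (U_open hm)), ?_⟩
    exact lt_of_lt_of_le ((U_open hm).measure_pos _ (U_nonempty hm))
      (MeasureTheory.measure_mono (U_subset_W hm))
  refine ⟨main, fun h => ?_⟩
  have h1 := h 5 (by norm_num)
  rw [MeasureTheory.ae_iff] at h1
  exact (main 5 le_rfl).2.ne' h1

end Pool.Agent.Results.MP_269329_co.WalkSums
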